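import Mathlib

namespace Pool.Agent.Results.MP_72856e_co.Counter

/-- `D` is a dominating set -/
def Dominating {V : Type} (G : SimpleGraph V) (D : Set V) : Prop :=
  ∀ v, v ∉ D → ∃ u ∈ D, G.Adj v u

/-- largest number of classes of a partition of the vertices into dominating sets -/
noncomputable def domatic {V : Type} (G : SimpleGraph V) : ℕ :=
  sSup {k | ∃ f : V → Fin k, ∀ j, Dominating G (f ⁻¹' {j})}

/-- order of a smallest maximal complete subgraph -/
noncomputable def minClique {V : Type} (G : SimpleGraph V) : ℕ :=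
  sInf {k | ∃ s : Set V, Maximal G.IsClique s ∧ s.ncard = k}

/-- the clique graph -/
def cliqueGraph {V : Type} (G : SimpleGraph V) :
    SimpleGraph {s : Set V // Maximal G.IsClique s} :=
  SimpleGraph.fromRel (fun s t => (s.1 ∩ t.1).Nonempty)

abbrev W := Fin 5 × Fin 4

def mem (v : W) (i : Fin 5) : Prop := v.1 = i ∨ (v.2 ≠ 0 ∧ v.1 + 1 = i)

instance (v : W) (i : Fin 5) : Decidable (mem v i) := by unfold mem; infer_instance

def H : SimpleGraph W := SimpleGraph.fromRel (fun u v => ∃ i, mem u i ∧ mem v i)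

def Q (i : Fin 5) : Set W := {v | mem v i}

lemma adj_iff (u v : W) : H.Adj u v ↔ u ≠ v ∧ ∃ i, mem u i ∧ mem v i := by
  simp only [H, SimpleGraph.fromRel_adj]
  constructor
  · rintro ⟨h, h1 | ⟨i, h1, h2⟩⟩
    · exact ⟨h, h1⟩
    · exact ⟨h, i, h2, h1⟩
  · rintro ⟨h, h1⟩
    exact ⟨h, Or.inl h1⟩

lemma helly : ∀ u v w : W, (∃ i, mem u i ∧ mem v i) → (∃ i, mem u i ∧ mem w i) →
    (∃ i, mem v i ∧ mem w i) → ¬ mem v u.1 → mem w (u.1 + 1) := by decide +kernel

lemma share {s : Set W} (hs : H.IsClique s) {u v : W} (hu : u ∈ s) (hv : v ∈ s) :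
    ∃ i, mem u i ∧ mem v i := by
  by_cases h : u = v
  · subst h; exact ⟨u.1, Or.inl rfl, Or.inl rfl⟩
  · exact ((adj_iff u v).1 (hs hu hv h)).2

lemma sub_Q {s : Set W} (hs : H.IsClique s) : ∃ i, s ⊆ Q i := by
  rcases s.eq_empty_or_nonempty with h | ⟨u, hu⟩
  · exact ⟨0, by simp [h]⟩
  · by_cases h : ∀ v ∈ s, mem v u.1
    · exact ⟨u.1, h⟩
    · push Not at h
      obtain ⟨v, hv, hvu⟩ := h
      exact ⟨u.1 + 1, fun w hw => helly u v w (share hs hu hv) (share hs hu hw) (share hs hv hw) hvu⟩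

lemma Q_clique (i : Fin 5) : H.IsClique (Q i) := fun u hu v hv h =>
  (adj_iff u v).2 ⟨h, i, hu, hv⟩

lemma priv : ∀ i j : Fin 5, mem (i, 0) j → i = j := by decide

lemma Q_max (i : Fin 5) : Maximal H.IsClique (Q i) := by
  refine ⟨Q_clique i, fun s hs hle => ?_⟩
  obtain ⟨j, hj⟩ := sub_Q hs
  have : i = j := priv i j (hj (hle (show (i, 0) ∈ Q i from Or.inl rfl)))
  subst this
  exact hj

lemma max_eq {s : Set W} (hs : Maximal H.IsClique s) : ∃ i, s = Q i := by
  obtain ⟨i, hi⟩ := sub_Q hs.1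
  exact ⟨i, le_antisymm hi (hs.2 (Q_clique i) hi)⟩

lemma Q_card (i : Fin 5) : (Q i).ncard = 7 := by
  have : Q i = ((Finset.univ.filter (fun v => mem v i) : Finset W) : Set W) := by
    ext v; simp [Q]
  rw [this, Set.ncard_coe_finset]
  clear this; revert i; decide

lemma Q_inj (i j : Fin 5) (h : Q i = Q j) : i = j :=
  priv i j (show (i, 0) ∈ Q j from h ▸ (show (i, 0) ∈ Q i from Or.inl rfl))

lemma cyc : ∀ i j : Fin 5, (i ≠ j ∧ ∃ v : W, mem v i ∧ mem v j) ↔
    (SimpleGraph.cycleGraph 5).Adj i j := by decide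

lemma three (D : Finset W) (h : ∀ i, ∃ v ∈ D, mem v i) : 3 ≤ D.card := by
  have h1 : (Finset.univ : Finset (Fin 5)) ⊆ D.biUnion (fun v => {v.1, v.1 + 1}) := by
    intro i _
    obtain ⟨v, hv, hm⟩ := h i
    refine Finset.mem_biUnion.2 ⟨v, hv, ?_⟩
    rcases hm with hm | hm
    · simp [hm]
    · simp [hm.2]
  have h2 := (Finset.card_le_card h1).trans (Finset.card_biUnion_le_card_mul _ _ 2
    (fun v _ => Finset.card_le_two))
  simp at h2
  omega

lemma dom_le (k : ℕ) (f : W → Fin k) (hf : ∀ j, Dominating H (f ⁻¹' {j})) : k ≤ 6 := by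
  have h1 : ∀ j, 3 ≤ (Finset.univ.filter (fun v => f v = j)).card := by
    intro j
    apply three
    intro i
    by_cases h : f (i, 0) = j
    · exact ⟨(i, 0), by simp [h], Or.inl rfl⟩
    · obtain ⟨u, hu, hadj⟩ := hf j (i, 0) h
      obtain ⟨_, l, h2, h3⟩ := (adj_iff _ _).1 hadj
      rw [← priv i l h2] at h3
      exact ⟨u, by simpa using hu, h3⟩
  have h2 := Finset.card_eq_sum_card_fiberwise (s := (Finset.univ : Finset W))
    (t := (Finset.univ : Finset (Fin k))) (f := f) (fun _ _ => Finset.mem_coe.2 (Finset.mem_univ _))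
  have h3 := Finset.sum_le_sum (s := (Finset.univ : Finset (Fin k))) (fun j _ => h1 j)
  rw [← h2] at h3
  simp at h3
  omega

theorem result : ∃ (V : Type) (_ : Fintype V) (G : SimpleGraph V),
    Nonempty (cliqueGraph G ≃g SimpleGraph.cycleGraph 5) ∧ domatic G < minClique G := by
  refine ⟨W, inferInstance, H, ⟨?_⟩, ?_⟩
  · refine RelIso.symm ⟨Equiv.ofBijective (fun i => ⟨Q i, Q_max i⟩) ⟨?_, ?_⟩, ?_⟩
    · intro i j h
      exact Q_inj i j (congrArg Subtype.val h)
    · rintro ⟨s, hs⟩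
      obtain ⟨i, rfl⟩ := max_eq hs
      exact ⟨i, rfl⟩
    · intro i j
      rw [← cyc i j]
      simp only [cliqueGraph, SimpleGraph.fromRel_adj, Equiv.ofBijective_apply]
      constructor
      · rintro ⟨h, ⟨v, h1, h2⟩ | ⟨v, h1, h2⟩⟩
        · exact ⟨fun e => h (by rw [e]), v, h1, h2⟩
        · exact ⟨fun e => h (by rw [e]), v, h2, h1⟩
      · rintro ⟨h, v, h1, h2⟩
        exact ⟨fun e => h (Q_inj i j (congrArg Subtype.val e)), Or.inl ⟨v, h1, h2⟩⟩
  · have h1 : domatic H ≤ 6 := csSup_le' (fun k ⟨f, hf⟩ => dom_le k f hf)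
    have h2 : 7 ≤ minClique H := by
      refine le_csInf ⟨7, Q 0, Q_max 0, Q_card 0⟩ ?_
      rintro k ⟨s, hs, rfl⟩
      obtain ⟨i, rfl⟩ := max_eq hs
      exact (Q_card i).ge
    omega

end Pool.Agent.Results.MP_72856e_co.Counter
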